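import Mathlib

/-!
# Random ray animals on `ℤ²`: deterministic part
-/

namespace Pool.Agent.N581.Ray

/-- nearest-neighbour adjacency in `ℤ²`. -/
def adj (u v : ℤ × ℤ) : Prop := |u.1 - v.1| + |u.2 - v.2| = 1

/-- The four unit vectors. -/
def dirVec : Fin 4 → ℤ × ℤ := ![(1, 0), (-1, 0), (0, 1), (0, -1)]

/-- A mark: the number of animals rooted at a site, and the directions and lengths of the
animals. -/
abbrev Mark := ℕ × (ℕ → Fin 4 × ℕ)

/-- One of the animals rooted at `x` contains `y`. The `i`-th animal is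
`{x, x + e, …, x + L e}` with `(e, L)` the `i`-th direction and length. -/
def covers (μ : Mark) (x y : ℤ × ℤ) : Prop :=
  ∃ i < μ.1, ∃ k : ℕ, k ≤ (μ.2 i).2 ∧ y = x + (k : ℤ) • dirVec (μ.2 i).1

/-- The set covered by the animals rooted in `S`. -/
def occR (ω : ℤ × ℤ → Mark) (S : Set (ℤ × ℤ)) : Set (ℤ × ℤ) := {y | ∃ x ∈ S, covers (ω x) x y}

/-- The occupied set. -/
def occ (ω : ℤ × ℤ → Mark) : Set (ℤ × ℤ) := {y | ∃ x, covers (ω x) x y}

/-- The graph on `ℤ²` with the nearest-neighbour edges between occupied sites. -/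
def occGraph (ω : ℤ × ℤ → Mark) : SimpleGraph (ℤ × ℤ) where
  Adj u v := adj u v ∧ u ∈ occ ω ∧ v ∈ occ ω
  symm := ⟨fun u v ⟨h, hu, hv⟩ => ⟨by unfold adj at *; rw [abs_sub_comm v.1, abs_sub_comm v.2]; exact h, hv, hu⟩⟩
  loopless := ⟨fun u ⟨h, _⟩ => by simp [adj] at h⟩

/-- There is an infinite cluster (connected component of the occupied set). -/
def Percolates (ω : ℤ × ℤ → Mark) : Prop :=
  ∃ v ∈ occ ω, {w | (occGraph ω).Reachable v w}.Infinite

def ball (x : ℤ × ℤ) (r : ℤ) : Set (ℤ × ℤ) := {y | |y.1 - x.1| ≤ r ∧ |y.2 - x.2| ≤ r}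

/-- steps inside `O`. -/
def Step (O : Set (ℤ × ℤ)) (u v : ℤ × ℤ) : Prop := adj u v ∧ u ∈ O ∧ v ∈ O

/-- connection inside `O`. -/
def Conn (O : Set (ℤ × ℤ)) (a b : ℤ × ℤ) : Prop := a ∈ O ∧ Relation.ReflTransGen (Step O) a b

lemma adj_symm {u v : ℤ × ℤ} (h : adj u v) : adj v u := by
  unfold adj at *; rw [abs_sub_comm v.1, abs_sub_comm v.2]; exact h

lemma Step.symm {O : Set (ℤ × ℤ)} {u v : ℤ × ℤ} (h : Step O u v) : Step O v u :=
  ⟨adj_symm h.1, h.2.2, h.2.1⟩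

lemma Conn.mem_right {O : Set (ℤ × ℤ)} {a b : ℤ × ℤ} (h : Conn O a b) : b ∈ O := by
  obtain ⟨ha, hr⟩ := h
  induction hr with
  | refl => exact ha
  | tail _ hs _ => exact hs.2.2

lemma rtg_symm {O : Set (ℤ × ℤ)} {a b : ℤ × ℤ} (h : Relation.ReflTransGen (Step O) a b) :
    Relation.ReflTransGen (Step O) b a := by
  induction h with
  | refl => exact Relation.ReflTransGen.refl
  | tail _ hs ih => exact Relation.ReflTransGen.head hs.symm ih

lemma Conn.symm {O : Set (ℤ × ℤ)} {a b : ℤ × ℤ} (h : Conn O a b) : Conn O b a :=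
  ⟨h.mem_right, rtg_symm h.2⟩

lemma Conn.trans {O : Set (ℤ × ℤ)} {a b c : ℤ × ℤ} (h : Conn O a b) (h' : Conn O b c) :
    Conn O a c := ⟨h.1, h.2.trans h'.2⟩

lemma Conn.mono {O O' : Set (ℤ × ℤ)} (hO : O ⊆ O') {a b : ℤ × ℤ} (h : Conn O a b) :
    Conn O' a b :=
  ⟨hO h.1, by
    have hr := h.2
    induction hr with
    | refl => exact Relation.ReflTransGen.refl
    | tail h1 hs ih => exact (ih ⟨h.1, h1⟩).tail ⟨hs.1, hO hs.2.1, hO hs.2.2⟩⟩

/-- first exit from `U`. -/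
lemma exit {O U : Set (ℤ × ℤ)} {a b : ℤ × ℤ} (h : Conn O a b) (ha : a ∈ U) (hb : b ∉ U) :
    ∃ c' c, c' ∈ U ∧ c ∉ U ∧ adj c' c ∧ c ∈ O ∧ Conn (O ∩ U) a c' := by
  obtain ⟨haO, hr⟩ := h
  have key : Conn (O ∩ U) a b ∨
      ∃ c' c, c' ∈ U ∧ c ∉ U ∧ adj c' c ∧ c ∈ O ∧ Conn (O ∩ U) a c' := by
    clear hb
    induction hr with
    | refl => exact Or.inl ⟨⟨haO, ha⟩, Relation.ReflTransGen.refl⟩
    | @tail b c _ hs ih =>
      rcases ih with ih | ih
      · by_cases hc : c ∈ U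
        · exact Or.inl ⟨ih.1, ih.2.tail ⟨hs.1, ih.mem_right, hs.2.2, hc⟩⟩
        · exact Or.inr ⟨b, c, ih.mem_right.2, hc, hs.1, hs.2.2, ih⟩
      · exact Or.inr ih
  rcases key with h | h
  · exact absurd h.mem_right.2 hb
  · exact h

/-- The crossing event. -/
def Cross (ω : ℤ × ℤ → Mark) (x : ℤ × ℤ) (r : ℤ) : Prop :=
  ∃ a ∈ ball x r, ∃ c, c ∉ ball x (8 * r) ∧ Conn (occR ω (ball x (10 * r))) a c

lemma adj_near {u v : ℤ × ℤ} (h : adj u v) : |v.1 - u.1| ≤ 1 ∧ |v.2 - u.2| ≤ 1 := by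
  unfold adj at h
  rw [abs_sub_comm v.1, abs_sub_comm v.2]
  have := abs_nonneg (u.1 - v.1)
  have := abs_nonneg (u.2 - v.2)
  constructor <;> omega

/-- localisation of a crossing. -/
lemma cross_of_conn {ω : ℤ × ℤ → Mark} {O : Set (ℤ × ℤ)} {k y c : ℤ × ℤ} {r : ℤ}
    (hloc : ∀ w ∈ ball k (8 * r + 1), w ∈ O → w ∈ occR ω (ball k (10 * r)))
    (hr : 0 ≤ r) (hy : y ∈ ball k r) (hc : c ∉ ball k (8 * r)) (h : Conn O y c) : Cross ω k r := by
  have hyU : y ∈ ball k (8 * r) := ⟨by have := hy.1; omega, by have := hy.2; omega⟩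
  obtain ⟨c', c2, hc', hc2, hadj, hc2O, hconn⟩ := exit h hyU hc
  have hsub : O ∩ ball k (8 * r) ⊆ occR ω (ball k (10 * r)) := by
    rintro w ⟨hwO, hw⟩
    exact hloc w ⟨by have := hw.1; omega, by have := hw.2; omega⟩ hwO
  have hc2' : c2 ∈ occR ω (ball k (10 * r)) := by
    refine hloc c2 ?_ hc2O
    have h1 := adj_near hadj
    have h2 := hc'.1
    have h3 := hc'.2
    constructor
    · calc |c2.1 - k.1| = |(c2.1 - c'.1) + (c'.1 - k.1)| := by ring_nf
        _ ≤ |c2.1 - c'.1| + |c'.1 - k.1| := abs_add_le _ _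
        _ ≤ 8 * r + 1 := by omega
    · calc |c2.2 - k.2| = |(c2.2 - c'.2) + (c'.2 - k.2)| := by ring_nf
        _ ≤ |c2.2 - c'.2| + |c'.2 - k.2| := abs_add_le _ _
        _ ≤ 8 * r + 1 := by omega
  have h1 := hconn.mono hsub
  exact ⟨y, hy, c2, hc2, h1.1, h1.2.tail ⟨hadj, h1.mem_right, hc2'⟩⟩

/-- A root has an animal of length greater than `r`. -/
def Long (μ : Mark) (r : ℤ) : Prop := ∃ i < μ.1, r < ((μ.2 i).2 : ℤ)

lemma dirVec_abs (e : Fin 4) : |(dirVec e).1| ≤ 1 ∧ |(dirVec e).2| ≤ 1 := by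
  fin_cases e <;> simp [dirVec]

lemma cover_near {μ : Mark} {x y : ℤ × ℤ} {r : ℤ} (h : covers μ x y) (hl : ¬ Long μ r) :
    |x.1 - y.1| ≤ r ∧ |x.2 - y.2| ≤ r := by
  obtain ⟨i, hi, k, hk, rfl⟩ := h
  have hL : ((μ.2 i).2 : ℤ) ≤ r := by
    by_contra hlt
    exact hl ⟨i, hi, not_le.1 hlt⟩
  have hkr : (k : ℤ) ≤ r := by
    have : (k : ℤ) ≤ (μ.2 i).2 := by exact_mod_cast hk
    omega
  have hd := dirVec_abs (μ.2 i).1
  have hk0 : (0 : ℤ) ≤ k := Int.natCast_nonneg k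
  constructor
  · have : x.1 - (x + (k : ℤ) • dirVec (μ.2 i).1).1 = -((k : ℤ) * (dirVec (μ.2 i).1).1) := by
      simp
    rw [this, abs_neg, abs_mul, abs_of_nonneg hk0]
    nlinarith [hd.1, abs_nonneg (dirVec (μ.2 i).1).1]
  · have : x.2 - (x + (k : ℤ) • dirVec (μ.2 i).1).2 = -((k : ℤ) * (dirVec (μ.2 i).1).2) := by
      simp
    rw [this, abs_neg, abs_mul, abs_of_nonneg hk0]
    nlinarith [hd.2, abs_nonneg (dirVec (μ.2 i).1).2]

/-- centres of the small balls. -/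
def center (x : ℤ × ℤ) (r : ℤ) (i : ℤ × ℤ) : ℤ × ℤ := (x.1 + r * i.1, x.2 + r * i.2)

@[irreducible] noncomputable def I1 : Finset (ℤ × ℤ) := Finset.Icc (-10) 10 ×ˢ Finset.Icc (-10) 10

@[irreducible] noncomputable def I2 : Finset (ℤ × ℤ) :=
  (Finset.Icc (-80) 80 ×ˢ Finset.Icc (-80) 80).filter fun i => 80 ≤ |i.1| ∨ 80 ≤ |i.2|

lemma near_center {x y : ℤ × ℤ} {r : ℤ} (hr : 0 < r) :
    y ∈ ball (center x r ((y.1 - x.1) / r, (y.2 - x.2) / r)) r := by
  have h1 := Int.emod_add_mul_ediv (y.1 - x.1) r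
  have h2 := Int.emod_add_mul_ediv (y.2 - x.2) r
  have h3 := Int.emod_nonneg (y.1 - x.1) hr.ne'
  have h4 := Int.emod_lt_of_pos (y.1 - x.1) hr
  have h5 := Int.emod_nonneg (y.2 - x.2) hr.ne'
  have h6 := Int.emod_lt_of_pos (y.2 - x.2) hr
  unfold ball center
  simp only [Set.mem_ofPred_eq]
  constructor <;> rw [abs_le] <;> constructor <;> linarith

lemma div_bounds {a r n : ℤ} (hr : 0 < r) (h : |a| ≤ n * r) : -n ≤ a / r ∧ a / r ≤ n := by
  rw [abs_le] at h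
  constructor
  · rw [Int.le_ediv_iff_mul_le hr]; linarith
  · rw [← Int.mul_ediv_cancel n hr.ne']
    exact Int.ediv_le_ediv hr h.2

lemma mem_I1 {x y : ℤ × ℤ} {r : ℤ} (hr : 0 < r) (hy : y ∈ ball x (10 * r)) :
    ((y.1 - x.1) / r, (y.2 - x.2) / r) ∈ I1 := by
  unfold I1
  rw [Finset.mem_product, Finset.mem_Icc, Finset.mem_Icc]
  exact ⟨div_bounds hr hy.1, div_bounds hr hy.2⟩

lemma div_eq_of_abs {a r n : ℤ} (hr : 0 < r) (h : |a| = n * r) : |a / r| = |n| := by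
  rcases abs_choice a with h1 | h1
  · rw [h1] at h
    rw [h, Int.mul_ediv_cancel n hr.ne']
  · rw [h1] at h
    have : a = (-n) * r := by linarith
    rw [this, Int.mul_ediv_cancel (-n) hr.ne', abs_neg]

lemma mem_I2 {x y : ℤ × ℤ} {r : ℤ} (hr : 0 < r) (hy : y ∈ ball x (80 * r))
    (hy2 : |y.1 - x.1| = 80 * r ∨ |y.2 - x.2| = 80 * r) :
    ((y.1 - x.1) / r, (y.2 - x.2) / r) ∈ I2 := by
  unfold I2
  rw [Finset.mem_filter, Finset.mem_product, Finset.mem_Icc, Finset.mem_Icc]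
  refine ⟨⟨div_bounds hr hy.1, div_bounds hr hy.2⟩, ?_⟩
  rcases hy2 with h | h
  · left
    have := div_eq_of_abs hr h
    simp only
    rw [this]; norm_num
  · right
    have := div_eq_of_abs hr h
    simp only
    rw [this]; norm_num

/-- The geometric step of the recursion. -/
theorem cross_step {ω : ℤ × ℤ → Mark} {x : ℤ × ℤ} {r : ℤ} (hr : 1 ≤ r)
    (h : Cross ω x (10 * r)) (hshort : ∀ z ∈ ball x (100 * r), ¬ Long (ω z) r) :
    ∃ i ∈ I1, ∃ j ∈ I2, Cross ω (center x r i) r ∧ Cross ω (center x r j) r := by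
  have hr0 : 0 < r := by omega
  obtain ⟨a, ha, c, hc, hconn⟩ := h
  have e1 : 10 * (10 * r) = 100 * r := by ring
  have e2 : 8 * (10 * r) = 80 * r := by ring
  rw [e1] at hconn
  rw [e2] at hc
  set O := occR ω (ball x (100 * r)) with hO
  have hloc : ∀ k : ℤ × ℤ, ∀ w ∈ ball k (8 * r + 1), w ∈ O → w ∈ occR ω (ball k (10 * r)) := by
    rintro k w hw ⟨z, hz, hcov⟩
    refine ⟨z, ?_, hcov⟩
    have h1 := cover_near hcov (hshort z hz)
    constructor
    · calc |z.1 - k.1| = |(z.1 - w.1) + (w.1 - k.1)| := by ring_nf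
        _ ≤ |z.1 - w.1| + |w.1 - k.1| := abs_add_le _ _
        _ ≤ 10 * r := by have := hw.1; have := h1.1; omega
    · calc |z.2 - k.2| = |(z.2 - w.2) + (w.2 - k.2)| := by ring_nf
        _ ≤ |z.2 - w.2| + |w.2 - k.2| := abs_add_le _ _
        _ ≤ 10 * r := by have := hw.2; have := h1.2; omega
  -- inner ball
  have hc10 : c ∉ ball x (10 * r) := fun h => hc ⟨by have := h.1; omega, by have := h.2; omega⟩
  obtain ⟨y1, _, hy1, _, _, _, hy1c⟩ := exit hconn ha hc10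
  have hy1O : Conn O a y1 := hy1c.mono Set.inter_subset_left
  have hy1toc : Conn O y1 c := hy1O.symm.trans hconn
  -- outer ball
  have ha80 : a ∈ ball x (80 * r) := ⟨by have := ha.1; omega, by have := ha.2; omega⟩
  obtain ⟨y2, z2, hy2, hz2, hadj, _, hy2c⟩ := exit hconn ha80 hc
  have hy2O : Conn O a y2 := hy2c.mono Set.inter_subset_left
  have hy2edge : |y2.1 - x.1| = 80 * r ∨ |y2.2 - x.2| = 80 * r := by
    have hn := adj_near hadj
    by_contra hcon
    push Not at hcon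
    apply hz2
    have h1 : |y2.1 - x.1| < 80 * r := lt_of_le_of_ne hy2.1 hcon.1
    have h2 : |y2.2 - x.2| < 80 * r := lt_of_le_of_ne hy2.2 hcon.2
    constructor
    · calc |z2.1 - x.1| = |(z2.1 - y2.1) + (y2.1 - x.1)| := by ring_nf
        _ ≤ |z2.1 - y2.1| + |y2.1 - x.1| := abs_add_le _ _
        _ ≤ 80 * r := by have := hn.1; omega
    · calc |z2.2 - x.2| = |(z2.2 - y2.2) + (y2.2 - x.2)| := by ring_nf
        _ ≤ |z2.2 - y2.2| + |y2.2 - x.2| := abs_add_le _ _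
        _ ≤ 80 * r := by have := hn.2; omega
  have hm1 := mem_I1 (x := x) (y := y1) (r := r) hr0 hy1
  have hm2 : ((y2.1 - x.1) / r, (y2.2 - x.2) / r) ∈ I2 := by
    apply mem_I2
    · exact hr0
    · exact hy2
    · exact hy2edge
  generalize hi1 : ((y1.1 - x.1) / r, (y1.2 - x.2) / r) = i1 at hm1
  generalize hi2 : ((y2.1 - x.1) / r, (y2.2 - x.2) / r) = i2 at hm2
  have hnear1 : y1 ∈ ball (center x r i1) r := by rw [← hi1]; exact near_center hr0
  have hnear2 : y2 ∈ ball (center x r i2) r := by rw [← hi2]; exact near_center hr0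
  refine ⟨i1, hm1, i2, hm2, ?_, ?_⟩
  · refine cross_of_conn (hloc _) hr0.le hnear1 ?_ hy1toc
    intro hcball
    have hb := hnear1
    apply hc
    have a1 := hb.1
    have a2 := hb.2
    have a3 := hcball.1
    have a4 := hcball.2
    have a5 := hy1.1
    have a6 := hy1.2
    rw [abs_le] at a1 a2 a3 a4 a5 a6
    constructor
    · rw [abs_le]; constructor <;> omega
    · rw [abs_le]; constructor <;> omega
  · refine cross_of_conn (hloc _) hr0.le hnear2 ?_ hy2O.symm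
    intro haball
    have hb := hnear2
    have a1 := hb.1
    have a2 := hb.2
    have a3 := haball.1
    have a4 := haball.2
    have a5 := ha.1
    have a6 := ha.2
    rw [abs_le] at a1 a2 a3 a4 a5 a6
    rcases hy2edge with h | h
    · rcases abs_choice (y2.1 - x.1) with h' | h' <;> rw [h'] at h <;> omega
    · rcases abs_choice (y2.2 - x.2) with h' | h' <;> rw [h'] at h <;> omega

/-- the balls of the two crossings are disjoint. -/
lemma centers_disjoint {x : ℤ × ℤ} {r : ℤ} (hr : 1 ≤ r) {i j : ℤ × ℤ} (hi : i ∈ I1) (hj : j ∈ I2) :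
    Disjoint (ball (center x r i) (10 * r)) (ball (center x r j) (10 * r)) := by
  rw [Set.disjoint_left]
  intro y h1 h2
  unfold I1 at hi
  unfold I2 at hj
  rw [Finset.mem_product, Finset.mem_Icc, Finset.mem_Icc] at hi
  rw [Finset.mem_filter, Finset.mem_product, Finset.mem_Icc, Finset.mem_Icc] at hj
  obtain ⟨⟨b1, b2⟩, ⟨b3, b4⟩⟩ := hi
  unfold ball center at h1 h2
  simp only [Set.mem_ofPred_eq] at h1 h2
  rw [abs_le, abs_le] at h1 h2
  obtain ⟨⟨c1, c2⟩, ⟨c3, c4⟩⟩ := h1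
  obtain ⟨⟨d1, d2⟩, ⟨d3, d4⟩⟩ := h2
  rcases hj.2 with h | h
  · rcases abs_choice j.1 with h' | h' <;> rw [h'] at h <;> nlinarith
  · rcases abs_choice j.2 with h' | h' <;> rw [h'] at h <;> nlinarith

end Pool.Agent.N581.Ray
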