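import Pool.Agent.N581.Ray.Rec

/-!
# A law with infinite second moment and no percolation at small intensity
-/

open MeasureTheory ProbabilityTheory Filter Topology
open scoped ENNReal NNReal

namespace Pool.Agent.N581.Ray

lemma rec_tendsto {K : ℝ} (hK : 0 < K) {u a : ℕ → ℝ} (hu : ∀ k, 0 ≤ u k)
    (h0 : u 0 ≤ 1 / (2 * K)) (ha : ∀ k, a k ≤ 1 / (4 * K)) (ha0 : Tendsto a atTop (𝓝 0))
    (hrec : ∀ k, u (k + 1) ≤ K * u k ^ 2 + a k) : Tendsto u atTop (𝓝 0) := by
  have hb : ∀ k, u k ≤ 1 / (2 * K) := by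
    intro k
    induction k with
    | zero => exact h0
    | succ k ih =>
      have h1 : u k ^ 2 ≤ (1 / (2 * K)) ^ 2 := pow_le_pow_left₀ (hu k) ih 2
      have h2 : K * u k ^ 2 ≤ K * (1 / (2 * K)) ^ 2 := mul_le_mul_of_nonneg_left h1 hK.le
      have h3 : K * (1 / (2 * K)) ^ 2 + 1 / (4 * K) = 1 / (2 * K) := by
        field_simp
        norm_num
      linarith [hrec k, ha k]
  have hhalf : ∀ k, u (k + 1) ≤ u k / 2 + a k := by
    intro k
    have h1 : K * u k ≤ 1 / 2 := by
      have := mul_le_mul_of_nonneg_left (hb k) hK.le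
      have h2 : K * (1 / (2 * K)) = 1 / 2 := by field_simp
      linarith
    have h2 : K * u k ^ 2 ≤ u k / 2 := by
      have := mul_le_mul_of_nonneg_right h1 (hu k)
      nlinarith
    linarith [hrec k]
  rw [Metric.tendsto_atTop]
  intro ε hε
  rw [Metric.tendsto_atTop] at ha0
  obtain ⟨N, hN⟩ := ha0 (ε / 4) (by positivity)
  have hN' : ∀ k, N ≤ k → a k ≤ ε / 4 := by
    intro k hk
    have := hN k hk
    rw [Real.dist_eq, sub_zero] at this
    exact (le_abs_self _).trans this.le
  have hbound : ∀ m, u (N + m) ≤ ε / 2 + (1 / 2) ^ m * (1 / (2 * K)) := by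
    intro m
    induction m with
    | zero =>
      have := hb N
      simp only [add_zero, pow_zero, one_mul]
      linarith
    | succ m ih =>
      have h1 := hhalf (N + m)
      have h2 := hN' (N + m) (Nat.le_add_right _ _)
      rw [← add_assoc, pow_succ]
      nlinarith
  have hgeo : Tendsto (fun m : ℕ => (1 / 2 : ℝ) ^ m * (1 / (2 * K))) atTop (𝓝 (0 * (1 / (2 * K)))) :=
    (tendsto_pow_atTop_nhds_zero_of_lt_one (by norm_num) (by norm_num)).mul_const _
  rw [zero_mul, Metric.tendsto_atTop] at hgeo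
  obtain ⟨M, hM⟩ := hgeo (ε / 2) (by positivity)
  refine ⟨N + M, fun k hk => ?_⟩
  obtain ⟨m, rfl⟩ := Nat.exists_eq_add_of_le (le_trans (Nat.le_add_right N M) hk)
  have hm : M ≤ m := by omega
  have h1 := hM m hm
  rw [Real.dist_eq, sub_zero] at h1
  rw [Real.dist_eq, sub_zero, abs_of_nonneg (hu _)]
  have h2 := hbound m
  have h3 := le_abs_self ((1 / 2 : ℝ) ^ m * (1 / (2 * K)))
  linarith

/-- the unnormalised weights. -/
noncomputable def wt (k : ℕ) : ℝ≥0∞ := ENNReal.ofReal ((1 / 100) ^ k / (k + 1))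

lemma wt_le (k : ℕ) : wt k ≤ ENNReal.ofReal ((1 / 100) ^ k) := by
  unfold wt
  apply ENNReal.ofReal_le_ofReal
  apply div_le_self (by positivity)
  have : (0 : ℝ) ≤ k := Nat.cast_nonneg k
  linarith

lemma tsum_wt_le : ∑' k, wt k ≤ ENNReal.ofReal (100 / 99) := by
  refine (ENNReal.tsum_le_tsum wt_le).trans ?_
  rw [← ENNReal.ofReal_tsum_of_nonneg (fun k => by positivity)
    (summable_geometric_of_lt_one (by norm_num) (by norm_num))]
  rw [tsum_geometric_of_lt_one (by norm_num) (by norm_num)]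
  norm_num

lemma tsum_wt_ne_top : ∑' k, wt k ≠ ⊤ := ne_top_of_le_ne_top ENNReal.ofReal_ne_top tsum_wt_le

lemma one_le_tsum_wt : 1 ≤ ∑' k, wt k := by
  have : wt 0 = 1 := by simp [wt]
  rw [← this]
  exact ENNReal.le_tsum 0

lemma tsum_wt_ne_zero : ∑' k, wt k ≠ 0 := by
  intro h
  have := one_le_tsum_wt
  rw [h] at this
  simp at this

/-- the normalised law of the exponent. -/
noncomputable def expo : PMF ℕ := PMF.normalize wt tsum_wt_ne_zero tsum_wt_ne_top

/-- the law of the length: `10 ^ k` with `k` of law `expo`. -/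
noncomputable def lenLaw : Measure ℕ := expo.toMeasure.map (fun k => 10 ^ k)

instance : IsProbabilityMeasure lenLaw := by
  unfold lenLaw
  exact Measure.isProbabilityMeasure_map (Measurable.of_discrete).aemeasurable

lemma expo_le (k : ℕ) : expo k ≤ wt k := by
  unfold expo
  rw [PMF.normalize_apply]
  calc wt k * (∑' x, wt x)⁻¹ ≤ wt k * 1 := by
        gcongr
        exact ENNReal.inv_le_one.2 one_le_tsum_wt
    _ = wt k := mul_one _

lemma expo_ge (k : ℕ) : wt k * (ENNReal.ofReal (100 / 99))⁻¹ ≤ expo k := by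
  unfold expo
  rw [PMF.normalize_apply]
  gcongr
  exact tsum_wt_le

lemma tsum_shift {F : ℕ → ℝ≥0∞} {k : ℕ} (hF : ∀ i ≤ k, F i = 0) :
    ∑' i, F i = ∑' j, F (k + 1 + j) := by
  symm
  refine Function.Injective.tsum_eq (g := fun j => k + 1 + j) (fun a b h => by simpa using h) ?_
  intro i hi
  rw [Function.mem_support] at hi
  by_contra hcon
  apply hi
  apply hF
  by_contra hlt
  exact hcon ⟨i - (k + 1), by show k + 1 + (i - (k + 1)) = i; omega⟩

/-- tail of the length in terms of the exponent -/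
lemma lenLaw_Ici (n : ℕ) : lenLaw (Set.Ici n) = ∑' i, if n ≤ 10 ^ i then expo i else 0 := by
  unfold lenLaw
  rw [Measure.map_apply Measurable.of_discrete MeasurableSet.of_discrete, PMF.toMeasure_apply]
  refine tsum_congr fun i => ?_
  by_cases h : n ≤ 10 ^ i
  · rw [if_pos h, Set.indicator_of_mem]
    exact h
  · rw [if_neg h, Set.indicator_of_notMem]
    exact h
  · exact MeasurableSet.of_discrete

lemma geo_tail {ρ : ℝ} (h0 : 0 < ρ) (h1 : ρ < 1) (k : ℕ) :
    ∑' j : ℕ, ENNReal.ofReal (ρ ^ (k + 1 + j) / (k + 2)) =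
      ENNReal.ofReal (ρ ^ (k + 1) / ((1 - ρ) * (k + 2))) := by
  have hs : Summable fun j : ℕ => ρ ^ (k + 1 + j) / ((k : ℝ) + 2) := by
    have : (fun j : ℕ => ρ ^ (k + 1 + j) / ((k : ℝ) + 2)) =
        fun j : ℕ => (ρ ^ (k + 1) / ((k : ℝ) + 2)) * ρ ^ j := by
      funext j; rw [pow_add]; ring
    rw [this]
    exact (summable_geometric_of_lt_one h0.le h1).mul_left _
  rw [← ENNReal.ofReal_tsum_of_nonneg (fun j => by positivity) hs]
  congr 1
  have : (fun j : ℕ => ρ ^ (k + 1 + j) / ((k : ℝ) + 2)) =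
      fun j : ℕ => (ρ ^ (k + 1) / ((k : ℝ) + 2)) * ρ ^ j := by
    funext j; rw [pow_add]; ring
  rw [this, tsum_mul_left, tsum_geometric_of_lt_one h0.le h1]
  have h3 : (1 - ρ) ≠ 0 := by linarith
  have h4 : (k : ℝ) + 2 ≠ 0 := by positivity
  field_simp

/-- first tail estimate. -/
lemma tail1 (k : ℕ) :
    lenLaw (Set.Ici (10 ^ k + 1)) ≤ ENNReal.ofReal ((1 / 100) ^ k / (99 * (k + 2))) := by
  rw [lenLaw_Ici, tsum_shift (k := k)]
  · have h1 : ∀ j : ℕ, (if 10 ^ k + 1 ≤ 10 ^ (k + 1 + j) then expo (k + 1 + j) else 0) ≤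
        ENNReal.ofReal ((1 / 100) ^ (k + 1 + j) / (k + 2)) := by
      intro j
      split_ifs
      · refine (expo_le _).trans ?_
        unfold wt
        apply ENNReal.ofReal_le_ofReal
        apply div_le_div_of_nonneg_left (by positivity) (by positivity)
        push_cast
        have : (0 : ℝ) ≤ j := Nat.cast_nonneg j
        linarith
      · exact bot_le
    refine (ENNReal.tsum_le_tsum h1).trans ?_
    rw [geo_tail (by norm_num) (by norm_num)]
    apply ENNReal.ofReal_le_ofReal
    apply le_of_eq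
    have h4 : (k : ℝ) + 2 ≠ 0 := by positivity
    rw [pow_succ]
    field_simp
    norm_num
  · intro i hik
    rw [if_neg]
    have : 10 ^ i ≤ 10 ^ k := Nat.pow_le_pow_right (by norm_num) hik
    omega

/-- second tail estimate. -/
lemma tail2 (k : ℕ) :
    ∑' j : ℕ, lenLaw (Set.Ici (10 ^ k + j + 1)) ≤
      ENNReal.ofReal ((1 / 10) ^ k / (9 * (k + 2))) := by
  simp_rw [lenLaw_Ici]
  rw [ENNReal.tsum_comm, tsum_shift (k := k)]
  · have h1 : ∀ i : ℕ, (∑' j : ℕ, if 10 ^ k + j + 1 ≤ 10 ^ (k + 1 + i) then expo (k + 1 + i) else 0) ≤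
        ENNReal.ofReal ((1 / 10) ^ (k + 1 + i) / (k + 2)) := by
      intro i
      rw [tsum_eq_sum (s := Finset.range (10 ^ (k + 1 + i)))]
      · calc ∑ j ∈ Finset.range (10 ^ (k + 1 + i)),
              (if 10 ^ k + j + 1 ≤ 10 ^ (k + 1 + i) then expo (k + 1 + i) else 0)
            ≤ ∑ j ∈ Finset.range (10 ^ (k + 1 + i)), wt (k + 1 + i) := by
              refine Finset.sum_le_sum fun j _ => ?_
              split_ifs
              · exact expo_le _
              · exact bot_le
          _ = ENNReal.ofReal (10 ^ (k + 1 + i)) * wt (k + 1 + i) := by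
              rw [Finset.sum_const, Finset.card_range, nsmul_eq_mul]
              congr 1
              rw [← ENNReal.ofReal_natCast]
              push_cast
              rfl
          _ ≤ ENNReal.ofReal ((1 / 10) ^ (k + 1 + i) / (k + 2)) := by
              unfold wt
              rw [← ENNReal.ofReal_mul (by positivity)]
              apply ENNReal.ofReal_le_ofReal
              rw [← mul_div_assoc, ← mul_pow]
              have : (10 : ℝ) * (1 / 100) = 1 / 10 := by norm_num
              rw [this]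
              apply div_le_div_of_nonneg_left (by positivity) (by positivity)
              push_cast
              have : (0 : ℝ) ≤ i := Nat.cast_nonneg i
              linarith
      · intro j hj
        rw [Finset.mem_range, not_lt] at hj
        rw [if_neg]
        have : 0 < 10 ^ k := by positivity
        omega
    refine (ENNReal.tsum_le_tsum h1).trans ?_
    rw [geo_tail (by norm_num) (by norm_num)]
    apply ENNReal.ofReal_le_ofReal
    apply le_of_eq
    have h4 : (k : ℝ) + 2 ≠ 0 := by positivity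
    rw [pow_succ]
    field_simp
    norm_num
  · intro i hik
    rw [ENNReal.tsum_eq_zero]
    intro j
    rw [if_neg]
    have : 10 ^ i ≤ 10 ^ k := Nat.pow_le_pow_right (by norm_num) hik
    omega

/-- infinite second moment -/
lemma lenLaw_moment : ∫⁻ L, ((L : ℝ≥0∞) + 1) ^ 2 ∂lenLaw = ⊤ := by
  unfold lenLaw
  rw [lintegral_map Measurable.of_discrete Measurable.of_discrete]
  rw [lintegral_countable']
  have h1 : ∀ k : ℕ, (ENNReal.ofReal (100 / 99))⁻¹ * ENNReal.ofReal (1 / (k + 1)) ≤
      ((((10 ^ k : ℕ) : ℝ≥0∞) + 1) ^ 2) * expo.toMeasure {k} := by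
    intro k
    rw [PMF.toMeasure_apply_singleton _ _ MeasurableSet.of_discrete]
    have h2 : ENNReal.ofReal (100 ^ k) ≤ (((10 ^ k : ℕ) : ℝ≥0∞) + 1) ^ 2 := by
      calc ENNReal.ofReal (100 ^ k) = ((10 ^ k : ℕ) : ℝ≥0∞) ^ 2 := by
            rw [← ENNReal.ofReal_natCast, ← ENNReal.ofReal_pow (by positivity)]
            congr 1
            push_cast
            rw [← pow_mul, mul_comm, pow_mul]
            norm_num
        _ ≤ _ := by gcongr; exact le_self_add
    calc (ENNReal.ofReal (100 / 99))⁻¹ * ENNReal.ofReal (1 / (k + 1))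
        = ENNReal.ofReal (100 ^ k) * (wt k * (ENNReal.ofReal (100 / 99))⁻¹) := by
          rw [← mul_assoc, mul_comm _ (ENNReal.ofReal (100 / 99))⁻¹]
          congr 1
          unfold wt
          rw [← ENNReal.ofReal_mul (by positivity)]
          congr 1
          rw [← mul_div_assoc, ← mul_pow]
          norm_num
      _ ≤ _ := mul_le_mul' h2 (expo_ge k)
  rw [eq_top_iff]
  refine le_trans ?_ (ENNReal.tsum_le_tsum h1)
  rw [ENNReal.tsum_mul_left]
  have h3 : ∑' k : ℕ, ENNReal.ofReal (1 / ((k : ℝ) + 1)) = ⊤ := by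
    by_contra hne
    have h4 := ENNReal.summable_toReal hne
    have h5 : (fun k : ℕ => (ENNReal.ofReal (1 / ((k : ℝ) + 1))).toReal) =
        fun k : ℕ => 1 / ((k : ℝ) + 1) := by
      funext k
      rw [ENNReal.toReal_ofReal (by positivity)]
    rw [h5] at h4
    have h6 : Summable fun k : ℕ => 1 / ((k + 1 : ℕ) : ℝ) := by
      simpa using h4
    rw [summable_nat_add_iff (f := fun k : ℕ => 1 / (k : ℝ)) 1] at h6
    exact Real.not_summable_one_div_natCast h6
  rw [h3, ENNReal.mul_top]
  exact ENNReal.inv_ne_zero.2 ENNReal.ofReal_ne_top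

end Pool.Agent.N581.Ray
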