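import Pool.Agent.N581.Ray.Geo

/-!
# Random ray animals on `ℤ²`: the probability space
-/

open MeasureTheory ProbabilityTheory Filter Topology
open scoped ENNReal NNReal

namespace Pool.Agent.N581.Ray

/-- The law of the mark of a site: a `Poisson(λ)` number, and independently an i.i.d. sequence
of pairs (uniform direction, length with law `q`). -/
noncomputable def markLaw (lam : ℝ≥0) (q : Measure ℕ) : Measure Mark :=
  (poissonMeasure lam).prod (Measure.infinitePi fun _ : ℕ =>
    (PMF.uniformOfFintype (Fin 4)).toMeasure.prod q)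

/-- The law of the configuration: the marks of the sites are i.i.d. -/
noncomputable def rayLaw (lam : ℝ≥0) (q : Measure ℕ) : Measure (ℤ × ℤ → Mark) :=
  Measure.infinitePi fun _ => markLaw lam q

instance (lam : ℝ≥0) (q : Measure ℕ) [IsProbabilityMeasure q] :
    IsProbabilityMeasure (markLaw lam q) := by unfold markLaw; infer_instance

instance (lam : ℝ≥0) (q : Measure ℕ) [IsProbabilityMeasure q] :
    IsProbabilityMeasure (rayLaw lam q) := by unfold rayLaw; infer_instance

/-- `k`-step reachability. -/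
def ReachN (O : Set (ℤ × ℤ)) : ℕ → ℤ × ℤ → ℤ × ℤ → Prop
  | 0, a, b => a ∈ O ∧ a = b
  | n + 1, a, b => ∃ c, ReachN O n a c ∧ adj c b ∧ b ∈ O

lemma conn_iff {O : Set (ℤ × ℤ)} {a b : ℤ × ℤ} : Conn O a b ↔ ∃ n, ReachN O n a b := by
  constructor
  · rintro ⟨ha, hr⟩
    induction hr with
    | refl => exact ⟨0, ha, rfl⟩
    | tail _ hs ih =>
      obtain ⟨n, hn⟩ := ih
      exact ⟨n + 1, _, hn, hs.1, hs.2.2⟩
  · rintro ⟨n, hn⟩
    induction n generalizing b with
    | zero => obtain ⟨ha, rfl⟩ := hn; exact ⟨ha, Relation.ReflTransGen.refl⟩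
    | succ n ih =>
      obtain ⟨c, hc, hadj, hb⟩ := hn
      have h1 := ih hc
      exact ⟨h1.1, h1.2.tail ⟨hadj, h1.mem_right, hb⟩⟩

lemma measurableSet_covers (x y : ℤ × ℤ) : MeasurableSet {μ : Mark | covers μ x y} := by
  have : {μ : Mark | covers μ x y} = ⋃ i : ℕ, ({μ : Mark | i < μ.1} ∩
      {μ : Mark | ∃ k : ℕ, k ≤ (μ.2 i).2 ∧ y = x + (k : ℤ) • dirVec (μ.2 i).1}) := by
    ext μ
    simp only [covers, Set.mem_iUnion, Set.mem_inter_iff, Set.mem_ofPred_eq]
  rw [this]
  refine MeasurableSet.iUnion fun i => MeasurableSet.inter ?_ ?_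
  · exact measurable_fst (MeasurableSet.of_discrete (s := {n : ℕ | i < n}))
  · have hm : Measurable fun μ : Mark => μ.2 i := (measurable_pi_apply i).comp measurable_snd
    exact hm (MeasurableSet.of_discrete
      (s := {p : Fin 4 × ℕ | ∃ k : ℕ, k ≤ p.2 ∧ y = x + (k : ℤ) • dirVec p.1}))

lemma measurableSet_long (i n : ℕ) : MeasurableSet {μ : Mark | i < μ.1 ∧ n ≤ (μ.2 i).2} := by
  refine MeasurableSet.inter ?_ ?_
  · exact measurable_fst (MeasurableSet.of_discrete (s := {k : ℕ | i < k}))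
  · have hm : Measurable fun μ : Mark => μ.2 i := (measurable_pi_apply i).comp measurable_snd
    exact hm (MeasurableSet.of_discrete (s := {p : Fin 4 × ℕ | n ≤ p.2}))

/-- the σ-algebra of the mark of `z`. -/
@[instance_reducible] def sig (z : ℤ × ℤ) : MeasurableSpace (ℤ × ℤ → Mark) :=
  MeasurableSpace.comap (fun ω => ω z) inferInstance

/-- the σ-algebra of the marks in `S`. -/
@[instance_reducible] def Sig (S : Set (ℤ × ℤ)) : MeasurableSpace (ℤ × ℤ → Mark) := ⨆ z ∈ S, sig z

lemma sig_le (z : ℤ × ℤ) : sig z ≤ MeasurableSpace.pi := by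
  unfold sig
  exact (measurable_pi_apply z).comap_le

lemma Sig_le (S : Set (ℤ × ℤ)) : Sig S ≤ MeasurableSpace.pi :=
  iSup₂_le fun z _ => sig_le z

lemma measurable_occR (S : Set (ℤ × ℤ)) (y : ℤ × ℤ) :
    MeasurableSet[Sig S] {ω : ℤ × ℤ → Mark | y ∈ occR ω S} := by
  have : {ω : ℤ × ℤ → Mark | y ∈ occR ω S} = ⋃ x ∈ S, {ω | covers (ω x) x y} := by
    ext ω; simp [occR]
  rw [this]
  refine MeasurableSet.biUnion (Set.to_countable S) fun x hx => ?_
  have h1 : MeasurableSet[sig x] {ω : ℤ × ℤ → Mark | covers (ω x) x y} :=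
    ⟨_, measurableSet_covers x y, rfl⟩
  exact (le_iSup₂_of_le x hx le_rfl : sig x ≤ Sig S) _ h1

lemma measurable_conn {F : MeasurableSpace (ℤ × ℤ → Mark)} {O : (ℤ × ℤ → Mark) → Set (ℤ × ℤ)}
    (hO : ∀ y, MeasurableSet[F] {ω | y ∈ O ω}) (a b : ℤ × ℤ) :
    MeasurableSet[F] {ω | Conn (O ω) a b} := by
  have h1 : ∀ n b, MeasurableSet[F] {ω | ReachN (O ω) n a b} := by
    intro n
    induction n with
    | zero =>
      intro b
      by_cases hab : a = b
      · have : {ω | ReachN (O ω) 0 a b} = {ω | a ∈ O ω} := by ext ω; simp [ReachN, hab]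
        rw [this]; exact hO a
      · have : {ω | ReachN (O ω) 0 a b} = ∅ := by ext ω; simp [ReachN, hab]
        rw [this]; exact MeasurableSet.empty
    | succ n ih =>
      intro b
      have : {ω | ReachN (O ω) (n + 1) a b} =
          ⋃ c : {c : ℤ × ℤ // adj c b}, ({ω | ReachN (O ω) n a c} ∩ {ω | b ∈ O ω}) := by
        ext ω
        simp only [ReachN, Set.mem_ofPred_eq, Set.mem_iUnion, Set.mem_inter_iff, Subtype.exists,
          exists_prop]
        constructor
        · rintro ⟨c, h1, h2, h3⟩; exact ⟨c, h2, h1, h3⟩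
        · rintro ⟨c, h1, h2, h3⟩; exact ⟨c, h2, h1, h3⟩
      rw [this]
      exact MeasurableSet.iUnion fun c => (ih c).inter (hO b)
  have : {ω | Conn (O ω) a b} = ⋃ n, {ω | ReachN (O ω) n a b} := by
    ext ω; simp [conn_iff]
  rw [this]
  exact MeasurableSet.iUnion fun n => h1 n b

lemma measurable_cross (x : ℤ × ℤ) (r : ℤ) :
    MeasurableSet[Sig (ball x (10 * r))] {ω : ℤ × ℤ → Mark | Cross ω x r} := by
  have : {ω : ℤ × ℤ → Mark | Cross ω x r} =
      ⋃ a ∈ ball x r, ⋃ c ∈ (ball x (8 * r))ᶜ, {ω | Conn (occR ω (ball x (10 * r))) a c} := by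
    ext ω
    simp only [Cross, Set.mem_iUnion, Set.mem_ofPred_eq, Set.mem_compl_iff, exists_prop]
  rw [this]
  refine MeasurableSet.biUnion (Set.to_countable _) fun a _ =>
    MeasurableSet.biUnion (Set.to_countable _) fun c _ => ?_
  exact measurable_conn (fun y => measurable_occR _ y) a c

section
variable {lam : ℝ≥0} {q : Measure ℕ} [IsProbabilityMeasure q]

lemma cross_indep {x y : ℤ × ℤ} {r : ℤ}
    (hd : Disjoint (ball x (10 * r)) (ball y (10 * r))) :
    (rayLaw lam q).real {ω | Cross ω x r ∧ Cross ω y r} =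
      (rayLaw lam q).real {ω | Cross ω x r} * (rayLaw lam q).real {ω | Cross ω y r} := by
  have hi : iIndepFun (fun (z : ℤ × ℤ) (ω : ℤ × ℤ → Mark) => ω z) (rayLaw lam q) := by
    unfold rayLaw
    exact iIndepFun_infinitePi (X := fun _ ω => ω) (by fun_prop)
  have hi2 : iIndep sig (rayLaw lam q) := hi
  have hind := indep_iSup_of_disjoint sig_le hi2 hd
  have h1 := (Indep_iff _ _ _).1 hind _ _ (measurable_cross x r) (measurable_cross y r)
  rw [Measure.real, Measure.real, Measure.real, ← ENNReal.toReal_mul, ← h1]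
  rfl

/-- the expected number of animals at a site is `λ`. -/
lemma tsum_poisson (lam : ℝ≥0) : ∑' i : ℕ, poissonMeasure lam (Set.Ioi i) = lam := by
  have h1 : ∀ i : ℕ, poissonMeasure lam (Set.Ioi i) =
      ∫⁻ n, (Set.Ioi i).indicator (fun _ => (1 : ℝ≥0∞)) n ∂(poissonMeasure lam) := by
    intro i
    rw [lintegral_indicator MeasurableSet.of_discrete]
    simp
  simp_rw [h1]
  rw [← lintegral_tsum fun i => (Measurable.of_discrete).aemeasurable]
  have h2 : ∀ n : ℕ, ∑' i : ℕ, (Set.Ioi i).indicator (fun _ => (1 : ℝ≥0∞)) n = n := by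
    intro n
    rw [tsum_eq_sum (s := Finset.range n)]
    · rw [Finset.sum_congr rfl (g := fun _ => (1 : ℝ≥0∞))]
      · simp
      · intro i hi
        rw [Set.indicator_of_mem]
        exact Finset.mem_range.1 hi
    · intro i hi
      rw [Set.indicator_of_notMem]
      simpa using hi
  simp_rw [h2]
  rw [poissonMeasure, lintegral_sum_measure]
  simp_rw [lintegral_smul_measure, lintegral_dirac]
  rw [tsum_eq_zero_add' ENNReal.summable]
  have h3 : ∀ n : ℕ, ENNReal.ofReal (Real.exp (-lam) * lam ^ (n + 1) / (n + 1).factorial) •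
      ((n + 1 : ℕ) : ℝ≥0∞) = (lam : ℝ≥0∞) * poissonMeasure lam {n} := by
    intro n
    rw [poissonMeasure_singleton, smul_eq_mul]
    have e1 : ((n + 1 : ℕ) : ℝ≥0∞) = ENNReal.ofReal ((n + 1 : ℕ) : ℝ) := by
      rw [ENNReal.ofReal_natCast]
    have e2 : (lam : ℝ≥0∞) = ENNReal.ofReal (lam : ℝ) := by
      rw [ENNReal.ofReal_coe_nnreal]
    rw [e1, e2, ← ENNReal.ofReal_mul (by positivity), ← ENNReal.ofReal_mul (by positivity)]
    congr 1
    rw [Nat.factorial_succ]
    push_cast
    have : (n.factorial : ℝ) ≠ 0 := by positivity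
    have h5 : (n : ℝ) + 1 ≠ 0 := by positivity
    field_simp
    ring
  simp_rw [h3]
  rw [ENNReal.tsum_mul_left]
  have h4 : ∑' n : ℕ, poissonMeasure lam {n} = 1 := by
    rw [← measure_univ (μ := poissonMeasure lam), ← Set.iUnion_of_singleton ℕ, measure_iUnion]
    · intro a b hab
      simpa using hab
    · intro i; exact MeasurableSet.of_discrete
  rw [h4]
  simp

/-- probability that some animal rooted at `z` has length at least `n`. -/
lemma prob_long_le (z : ℤ × ℤ) (n : ℕ) :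
    rayLaw lam q {ω | ∃ i < (ω z).1, n ≤ ((ω z).2 i).2} ≤ lam * q (Set.Ici n) := by
  have h0 : rayLaw lam q {ω | ∃ i < (ω z).1, n ≤ ((ω z).2 i).2} ≤
      markLaw lam q {μ | ∃ i < μ.1, n ≤ (μ.2 i).2} := by
    have hmp := measurePreserving_eval_infinitePi (fun _ : ℤ × ℤ => markLaw lam q) z
    have hms : MeasurableSet {μ : Mark | ∃ i < μ.1, n ≤ (μ.2 i).2} := by
      have : {μ : Mark | ∃ i < μ.1, n ≤ (μ.2 i).2} = ⋃ i : ℕ, {μ : Mark | i < μ.1 ∧ n ≤ (μ.2 i).2} := by
        ext μ; simp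
      rw [this]; exact MeasurableSet.iUnion fun i => measurableSet_long i n
    exact (hmp.measure_preimage hms.nullMeasurableSet).le
  refine h0.trans ?_
  have hset : {μ : Mark | ∃ i < μ.1, n ≤ (μ.2 i).2} =
      ⋃ i : ℕ, (Set.Ioi i ×ˢ {s : ℕ → Fin 4 × ℕ | n ≤ (s i).2}) := by
    ext μ; simp
  rw [hset]
  refine (measure_iUnion_le _).trans ?_
  have h2 : ∀ i : ℕ, markLaw lam q (Set.Ioi i ×ˢ {s : ℕ → Fin 4 × ℕ | n ≤ (s i).2}) =
      poissonMeasure lam (Set.Ioi i) * q (Set.Ici n) := by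
    intro i
    unfold markLaw
    rw [Measure.prod_prod]
    congr 1
    have hmp := measurePreserving_eval_infinitePi
      (fun _ : ℕ => (PMF.uniformOfFintype (Fin 4)).toMeasure.prod q) i
    have h3 := hmp.measure_preimage (s := Set.univ ×ˢ Set.Ici n)
      (MeasurableSet.of_discrete).nullMeasurableSet
    rw [Measure.prod_prod, measure_univ, one_mul] at h3
    rw [← h3]
    congr 1
    ext s
    simp
  simp_rw [h2]
  rw [ENNReal.tsum_mul_right, tsum_poisson]

end

end Pool.Agent.N581.Ray
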