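import Pool.Agent.N581.Ray.Prob

/-!
# The multiscale recursion
-/

open MeasureTheory ProbabilityTheory Filter Topology
open scoped ENNReal NNReal

namespace Pool.Agent.N581.Ray

lemma ball_finite (x : ℤ × ℤ) (r : ℤ) : (ball x r).Finite := by
  refine ((Set.finite_Icc (x.1 - r) (x.1 + r)).prod (Set.finite_Icc (x.2 - r) (x.2 + r))).subset ?_
  rintro y ⟨h1, h2⟩
  rw [abs_le] at h1 h2
  simp only [Set.mem_prod, Set.mem_Icc]
  constructor <;> constructor <;> linarith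

/-- the ball as a finset. -/
noncomputable def fball (x : ℤ × ℤ) (r : ℤ) : Finset (ℤ × ℤ) :=
  Finset.Icc (x.1 - r) (x.1 + r) ×ˢ Finset.Icc (x.2 - r) (x.2 + r)

lemma mem_fball {x y : ℤ × ℤ} {r : ℤ} : y ∈ fball x r ↔ y ∈ ball x r := by
  unfold fball ball
  simp only [Finset.mem_product, Finset.mem_Icc, Set.mem_ofPred_eq, abs_le]
  constructor
  · rintro ⟨⟨a, b⟩, ⟨c, d⟩⟩; exact ⟨⟨by linarith, by linarith⟩, ⟨by linarith, by linarith⟩⟩
  · rintro ⟨⟨a, b⟩, ⟨c, d⟩⟩; exact ⟨⟨by linarith, by linarith⟩, ⟨by linarith, by linarith⟩⟩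

lemma fball_card (x : ℤ × ℤ) (r : ℕ) : (fball x r).card = (2 * r + 1) ^ 2 := by
  unfold fball
  rw [Finset.card_product, Int.card_Icc, Int.card_Icc]
  have h1 : (x.1 + r + 1 - (x.1 - r)).toNat = 2 * r + 1 := by omega
  have h2 : (x.2 + r + 1 - (x.2 - r)).toNat = 2 * r + 1 := by omega
  rw [h1, h2]; ring

section
variable {lam : ℝ≥0} {q : Measure ℕ} [IsProbabilityMeasure q]

/-- the crossing probability. -/
noncomputable def pc (lam : ℝ≥0) (q : Measure ℕ) (x : ℤ × ℤ) (r : ℤ) : ℝ :=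
  (rayLaw lam q).real {ω | Cross ω x r}

/-- its supremum over the centre. -/
noncomputable def ps (lam : ℝ≥0) (q : Measure ℕ) (r : ℤ) : ℝ := ⨆ x, pc lam q x r

lemma pc_le_ps (x : ℤ × ℤ) (r : ℤ) : pc lam q x r ≤ ps lam q r :=
  le_ciSup (f := fun x => pc lam q x r) ⟨1, by rintro _ ⟨y, rfl⟩; exact measureReal_le_one⟩ x

lemma pc_nonneg (x : ℤ × ℤ) (r : ℤ) : 0 ≤ pc lam q x r := measureReal_nonneg

lemma ps_nonneg (r : ℤ) : 0 ≤ ps lam q r := (pc_nonneg (0, 0) r).trans (pc_le_ps _ r)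

lemma prob_long_real_le (z : ℤ × ℤ) (n : ℕ) :
    (rayLaw lam q).real {ω | ∃ i < (ω z).1, n ≤ ((ω z).2 i).2} ≤ lam * q.real (Set.Ici n) := by
  have h := prob_long_le (lam := lam) (q := q) z n
  have h2 := ENNReal.toReal_mono (ENNReal.mul_ne_top ENNReal.coe_ne_top (measure_ne_top _ _)) h
  rwa [ENNReal.toReal_mul, ENNReal.coe_toReal] at h2

lemma union_bound {ι : Type*} (s : Finset ι) (A : ι → Set (ℤ × ℤ → Mark)) :
    (rayLaw lam q).real (⋃ i ∈ s, A i) ≤ ∑ i ∈ s, (rayLaw lam q).real (A i) :=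
  measureReal_biUnion_finset_le s A

/-- The recursion. -/
theorem ps_step {r : ℕ} (hr : 1 ≤ r) :
    ps lam q (10 * r) ≤ ((I1.card : ℝ) * I2.card) * ps lam q r ^ 2 +
      (200 * (r : ℝ) + 1) ^ 2 * (lam * q.real (Set.Ici (r + 1))) := by
  refine ciSup_le fun x => ?_
  have hsub : {ω : ℤ × ℤ → Mark | Cross ω x (10 * r)} ⊆
      (⋃ p ∈ I1 ×ˢ I2, {ω | Cross ω (center x r p.1) r ∧ Cross ω (center x r p.2) r}) ∪
      (⋃ z ∈ fball x (100 * r : ℕ), {ω | ∃ i < (ω z).1, r + 1 ≤ ((ω z).2 i).2}) := by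
    intro ω hω
    by_cases hshort : ∀ z ∈ ball x (100 * (r : ℤ)), ¬ Long (ω z) r
    · left
      obtain ⟨i, hi, j, hj, hij⟩ := cross_step (by exact_mod_cast hr) hω hshort
      rw [Set.mem_iUnion₂]
      exact ⟨(i, j), Finset.mk_mem_product hi hj, hij⟩
    · right
      push Not at hshort
      obtain ⟨z, hz, i, hi, hlt⟩ := hshort
      rw [Set.mem_iUnion₂]
      refine ⟨z, ?_, i, hi, ?_⟩
      · rw [mem_fball]; push_cast; exact hz
      · omega
  have h1 := measureReal_mono (μ := rayLaw lam q) hsub (measure_ne_top _ _)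
  refine h1.trans ((measureReal_union_le _ _).trans (add_le_add ?_ ?_))
  · refine (union_bound _ _).trans ?_
    have hterm : ∀ p ∈ I1 ×ˢ I2, (rayLaw lam q).real
        {ω | Cross ω (center x r p.1) r ∧ Cross ω (center x r p.2) r} ≤ ps lam q r ^ 2 := by
      rintro ⟨i, j⟩ hp
      rw [Finset.mem_product] at hp
      rw [cross_indep (centers_disjoint (by exact_mod_cast hr) hp.1 hp.2), sq]
      exact mul_le_mul (pc_le_ps _ _) (pc_le_ps _ _) (pc_nonneg _ _) (ps_nonneg _)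
    refine (Finset.sum_le_sum hterm).trans (le_of_eq ?_)
    rw [Finset.sum_const, Finset.card_product, nsmul_eq_mul]
    push_cast
    ring
  · refine (union_bound _ _).trans ?_
    refine (Finset.sum_le_sum fun z _ => prob_long_real_le z (r + 1)).trans (le_of_eq ?_)
    rw [Finset.sum_const, fball_card, nsmul_eq_mul]
    push_cast
    ring

/-- The start of the recursion. -/
theorem ps_one : ps lam q 1 ≤ 441 * lam := by
  refine ciSup_le fun x => ?_
  have hsub : {ω : ℤ × ℤ → Mark | Cross ω x 1} ⊆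
      (⋃ z ∈ fball x (10 : ℕ), {ω | ∃ i < (ω z).1, 0 ≤ ((ω z).2 i).2}) := by
    rintro ω ⟨a, _, c, _, hconn⟩
    obtain ⟨z, hz, i, hi, _⟩ := hconn.1
    rw [Set.mem_iUnion₂]
    refine ⟨z, ?_, i, hi, Nat.zero_le _⟩
    rw [mem_fball]; exact hz
  refine (measureReal_mono (μ := rayLaw lam q) hsub (measure_ne_top _ _)).trans ?_
  refine (union_bound _ _).trans ?_
  refine (Finset.sum_le_sum fun z _ => prob_long_real_le z 0).trans ?_
  rw [Finset.sum_const, fball_card, nsmul_eq_mul]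
  have h1 : q.real (Set.Ici 0) ≤ 1 := measureReal_le_one
  have h2 : (0 : ℝ) ≤ lam := lam.2
  push_cast
  nlinarith

end

/-- roots of far animals: side `s`, transversal offset `b`, distance `10 r + j + 1`. -/
def farRoot (v : ℤ × ℤ) (r : ℤ) (s : Fin 4) (b : ℤ) (j : ℕ) : ℤ × ℤ :=
  ![(v.1 + (10 * r + j + 1), v.2 + b), (v.1 - (10 * r + j + 1), v.2 + b),
    (v.1 + b, v.2 + (10 * r + j + 1)), (v.1 + b, v.2 - (10 * r + j + 1))] s

/-- the far event. -/
def Far (ω : ℤ × ℤ → Mark) (v : ℤ × ℤ) (r : ℕ) : Prop :=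
  ∃ s : Fin 4, ∃ b ∈ Finset.Icc (-(9 * r : ℤ)) (9 * r), ∃ j : ℕ,
    ∃ i < (ω (farRoot v r s b j)).1, r + j + 1 ≤ ((ω (farRoot v r s b j)).2 i).2

/-- A far animal hitting the ball of radius `8 r + 1` gives the far event. -/
lemma far_of_covers {ω : ℤ × ℤ → Mark} {v w z : ℤ × ℤ} {r : ℕ} (hr : 1 ≤ r)
    (hw : w ∈ ball v (8 * r + 1)) (hz : z ∉ ball v (10 * r)) (h : covers (ω z) z w) :
    Far ω v r := by
  obtain ⟨i, hi, k, hk, hwz⟩ := h
  have hr' : (1 : ℤ) ≤ r := by exact_mod_cast hr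
  have hw1 := hw.1
  have hw2 := hw.2
  rw [abs_le] at hw1 hw2
  have hz' : ¬ (|z.1 - v.1| ≤ 10 * (r : ℤ) ∧ |z.2 - v.2| ≤ 10 * (r : ℤ)) := hz
  rw [abs_le, abs_le] at hz'
  -- coordinates of `w`
  generalize he : ((ω z).2 i).1 = e at hwz
  have hx : w.1 = z.1 + k * (dirVec e).1 ∧ w.2 = z.2 + k * (dirVec e).2 := by
    rw [hwz]; simp
  have hhor : ∀ t : ℤ, (t = 1 ∨ t = -1) → w.1 = z.1 + k * t → w.2 = z.2 → Far ω v r := by
    intro t ht h1 h2
    have hb : z.2 - v.2 ∈ Finset.Icc (-(9 * r : ℤ)) (9 * r) := by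
      rw [Finset.mem_Icc]; constructor <;> omega
    rcases lt_or_ge (10 * (r : ℤ)) (z.1 - v.1) with hlt | hle
    · refine ⟨0, z.2 - v.2, hb, (z.1 - v.1 - 10 * r - 1).toNat, ?_⟩
      have hj : ((z.1 - v.1 - 10 * (r : ℤ) - 1).toNat : ℤ) = z.1 - v.1 - 10 * r - 1 :=
        Int.toNat_of_nonneg (by omega)
      have hroot : farRoot v r 0 (z.2 - v.2) (z.1 - v.1 - 10 * r - 1).toNat = z := by
        unfold farRoot
        simp only [Matrix.cons_val_zero]
        rw [hj]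
        refine Prod.ext ?_ ?_ <;> simp <;> ring
      rw [hroot]
      refine ⟨i, hi, ?_⟩
      have : (r : ℤ) + (z.1 - v.1 - 10 * (r : ℤ) - 1).toNat + 1 ≤ k := by
        rw [hj]; rcases ht with rfl | rfl <;> omega
      omega
    · have hlt : z.1 - v.1 < -(10 * (r : ℤ)) := by
        by_contra hcon
        apply hz'
        constructor <;> constructor <;> omega
      refine ⟨1, z.2 - v.2, hb, (v.1 - z.1 - 10 * r - 1).toNat, ?_⟩
      have hj : ((v.1 - z.1 - 10 * (r : ℤ) - 1).toNat : ℤ) = v.1 - z.1 - 10 * r - 1 :=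
        Int.toNat_of_nonneg (by omega)
      have hroot : farRoot v r 1 (z.2 - v.2) (v.1 - z.1 - 10 * r - 1).toNat = z := by
        unfold farRoot
        simp only [Matrix.cons_val_one, Matrix.cons_val_zero]
        rw [hj]
        refine Prod.ext ?_ ?_ <;> simp <;> ring
      rw [hroot]
      refine ⟨i, hi, ?_⟩
      have : (r : ℤ) + (v.1 - z.1 - 10 * (r : ℤ) - 1).toNat + 1 ≤ k := by
        rw [hj]; rcases ht with rfl | rfl <;> omega
      omega
  have hver : ∀ t : ℤ, (t = 1 ∨ t = -1) → w.2 = z.2 + k * t → w.1 = z.1 → Far ω v r := by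
    intro t ht h1 h2
    have hb : z.1 - v.1 ∈ Finset.Icc (-(9 * r : ℤ)) (9 * r) := by
      rw [Finset.mem_Icc]; constructor <;> omega
    rcases lt_or_ge (10 * (r : ℤ)) (z.2 - v.2) with hlt | hle
    · refine ⟨2, z.1 - v.1, hb, (z.2 - v.2 - 10 * r - 1).toNat, ?_⟩
      have hj : ((z.2 - v.2 - 10 * (r : ℤ) - 1).toNat : ℤ) = z.2 - v.2 - 10 * r - 1 :=
        Int.toNat_of_nonneg (by omega)
      have hroot : farRoot v r 2 (z.1 - v.1) (z.2 - v.2 - 10 * r - 1).toNat = z := by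
        unfold farRoot
        show (v.1 + (z.1 - v.1), v.2 + (10 * (r : ℤ) + ((z.2 - v.2 - 10 * r - 1).toNat : ℤ) + 1)) = z
        rw [hj]
        refine Prod.ext ?_ ?_ <;> simp <;> ring
      rw [hroot]
      refine ⟨i, hi, ?_⟩
      have : (r : ℤ) + (z.2 - v.2 - 10 * (r : ℤ) - 1).toNat + 1 ≤ k := by
        rw [hj]; rcases ht with rfl | rfl <;> omega
      omega
    · have hlt : z.2 - v.2 < -(10 * (r : ℤ)) := by
        by_contra hcon
        apply hz'
        constructor <;> constructor <;> omega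
      refine ⟨3, z.1 - v.1, hb, (v.2 - z.2 - 10 * r - 1).toNat, ?_⟩
      have hj : ((v.2 - z.2 - 10 * (r : ℤ) - 1).toNat : ℤ) = v.2 - z.2 - 10 * r - 1 :=
        Int.toNat_of_nonneg (by omega)
      have hroot : farRoot v r 3 (z.1 - v.1) (v.2 - z.2 - 10 * r - 1).toNat = z := by
        unfold farRoot
        show (v.1 + (z.1 - v.1), v.2 - (10 * (r : ℤ) + ((v.2 - z.2 - 10 * r - 1).toNat : ℤ) + 1)) = z
        rw [hj]
        refine Prod.ext ?_ ?_ <;> simp <;> ring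
      rw [hroot]
      refine ⟨i, hi, ?_⟩
      have : (r : ℤ) + (v.2 - z.2 - 10 * (r : ℤ) - 1).toNat + 1 ≤ k := by
        rw [hj]; rcases ht with rfl | rfl <;> omega
      omega
  fin_cases e
  · refine hhor 1 (Or.inl rfl) ?_ ?_ <;> simp [hx, dirVec]
  · refine hhor (-1) (Or.inr rfl) ?_ ?_ <;> simp [hx, dirVec]
  · refine hver 1 (Or.inl rfl) ?_ ?_ <;> simp [hx, dirVec]
  · refine hver (-1) (Or.inr rfl) ?_ ?_ <;> simp [hx, dirVec]

/-- An infinite cluster gives a crossing or the far event at every scale. -/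
lemma percolates_sub {ω : ℤ × ℤ → Mark} {v : ℤ × ℤ} (hv : v ∈ occ ω)
    (hinf : {w | (occGraph ω).Reachable v w}.Infinite) {r : ℕ} (hr : 1 ≤ r) :
    Cross ω v r ∨ Far ω v r := by
  by_cases hfar : Far ω v r
  · exact Or.inr hfar
  left
  obtain ⟨c, hc, hcb⟩ : ∃ c, (occGraph ω).Reachable v c ∧ c ∉ ball v (8 * r) := by
    by_contra hcon
    push Not at hcon
    exact hinf ((ball_finite v (8 * r)).subset fun c hc => hcon c hc)
  have hconn : Conn (occ ω) v c := by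
    refine ⟨hv, ?_⟩
    clear hcb
    rw [SimpleGraph.reachable_iff_reflTransGen] at hc
    induction hc with
    | refl => exact Relation.ReflTransGen.refl
    | tail _ hs ih => exact ih.tail hs
  have hr' : (0 : ℤ) ≤ r := Int.natCast_nonneg r
  refine cross_of_conn (O := occ ω) ?_ hr' ⟨by simp, by simp⟩ hcb hconn
  rintro w hw ⟨z, hz⟩
  by_cases hzb : z ∈ ball v (10 * r)
  · exact ⟨z, hzb, hz⟩
  · exact absurd (far_of_covers hr hw hzb hz) hfar

section
variable {lam : ℝ≥0} {q : Measure ℕ} [IsProbabilityMeasure q]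

/-- probability of the far event. -/
lemma prob_far_le (v : ℤ × ℤ) (r : ℕ) :
    rayLaw lam q {ω | Far ω v r} ≤
      4 * ((18 * r + 1 : ℕ) * (lam * ∑' j : ℕ, q (Set.Ici (r + j + 1)))) := by
  have hsub : {ω : ℤ × ℤ → Mark | Far ω v r} ⊆
      ⋃ s ∈ (Finset.univ : Finset (Fin 4)), ⋃ b ∈ Finset.Icc (-(9 * r : ℤ)) (9 * r), ⋃ j : ℕ,
        {ω | ∃ i < (ω (farRoot v r s b j)).1, r + j + 1 ≤ ((ω (farRoot v r s b j)).2 i).2} := by
    rintro ω ⟨s, b, hb, j, hj⟩
    simp only [Set.mem_iUnion]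
    exact ⟨s, Finset.mem_univ s, b, hb, j, hj⟩
  refine (measure_mono hsub).trans ?_
  refine (measure_biUnion_finset_le _ _).trans ?_
  have h1 : ∀ s ∈ (Finset.univ : Finset (Fin 4)),
      rayLaw lam q (⋃ b ∈ Finset.Icc (-(9 * r : ℤ)) (9 * r), ⋃ j : ℕ,
        {ω | ∃ i < (ω (farRoot v r s b j)).1, r + j + 1 ≤ ((ω (farRoot v r s b j)).2 i).2}) ≤
      (18 * r + 1 : ℕ) * (lam * ∑' j : ℕ, q (Set.Ici (r + j + 1))) := by
    intro s _
    refine (measure_biUnion_finset_le _ _).trans ?_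
    have h2 : ∀ b ∈ Finset.Icc (-(9 * r : ℤ)) (9 * r), rayLaw lam q (⋃ j : ℕ,
        {ω | ∃ i < (ω (farRoot v r s b j)).1, r + j + 1 ≤ ((ω (farRoot v r s b j)).2 i).2}) ≤
        lam * ∑' j : ℕ, q (Set.Ici (r + j + 1)) := by
      intro b _
      refine (measure_iUnion_le _).trans ?_
      rw [← ENNReal.tsum_mul_left]
      exact ENNReal.tsum_le_tsum fun j => prob_long_le _ _
    refine (Finset.sum_le_sum h2).trans (le_of_eq ?_)
    rw [Finset.sum_const, Int.card_Icc, nsmul_eq_mul]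
    congr 2
    omega
  refine (Finset.sum_le_sum h1).trans (le_of_eq ?_)
  rw [Finset.sum_const, Finset.card_univ, Fintype.card_fin, nsmul_eq_mul]
  norm_num

end

end Pool.Agent.N581.Ray
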